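import Mathlib
import Pool.Agent.TH510.ETF.Core

/-!
# Complex equiangular tight frames of `2 M` vectors in dimension `M = 2 ^ k * q`

There is a complex equiangular tight frame of `2 M` vectors in `ℂ ^ M` for every `M = 2 ^ k * q`, where
`q = 1`, or `q` is an odd prime power, or `q + 1 ≥ 4` is the order of a symmetric or of a skew real
conference matrix.

Let `K` be the core of a real conference matrix of order `v + 1`. If `K` is symmetric, let `c` be a root
of `(v - 1) c ^ 2 + 2 c = 2`, `A = K` and `B = (1 - c) I + c J + i √(1 - c ^ 2) K`. If `K` is skew, let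
`a ^ 2 = 2 / (v - 1)`, `b ^ 2 = 1 - a ^ 2`, `A = a (J - I) + i b K` and `B = I + u K` where `|u| = 1` and
the imaginary part of `u` is `a b`. In both cases `[[A, B], [B*, -A]]` is a Hermitian conference matrix
of order `2 v`. If `S` is a Hermitian conference matrix of order `N`, then
`[[S, S + i I], [S - i I, -S]]` is one of order `2 N`.
-/

set_option autoImplicit false

open Matrix

namespace Pool.Agent.Results.MP_0c7934_co.PrimePowerDimensions

/-- `N` vectors which span `ℂ ^ M`, of norm one, tight, and equiangular. -/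
def IsETF {N M : ℕ} (f : Fin N → EuclideanSpace ℂ (Fin M)) : Prop :=
  Submodule.span ℂ (Set.range f) = ⊤ ∧ (∀ i, ‖f i‖ = 1) ∧
    (∃ A : ℝ, 0 < A ∧ ∀ x, ∑ i, ‖inner ℂ x (f i)‖ ^ 2 = A * ‖x‖ ^ 2) ∧
    (∃ c : ℝ, ∀ i j, i ≠ j → ‖inner ℂ (f i) (f j)‖ = c)

theorem result (k m : ℕ)
    (hm : m = 1 ∨ (IsPrimePow m ∧ Odd m) ∨
      (3 ≤ m ∧ ∃ W : Matrix (Fin (m + 1)) (Fin (m + 1)) ℤ, (∀ i, W i i = 0) ∧
        (∀ i j, i ≠ j → W i j = 1 ∨ W i j = -1) ∧ (Wᵀ = W ∨ Wᵀ = -W) ∧
        W * Wᵀ = (m : ℤ) • (1 : Matrix (Fin (m + 1)) (Fin (m + 1)) ℤ))) :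
    ∃ f : Fin (2 * (2 ^ k * m)) → EuclideanSpace ℂ (Fin (2 ^ k * m)), IsETF f := by
  rcases hm with rfl | ⟨hq, ho⟩ | ⟨h3, W, h0, h1, hT, hW⟩
  · have h := Pool.Agent.TH510.ETF.hasConf_one.iter (k + 1)
    refine Pool.Agent.TH510.ETF.to_frame (Nat.mul_pos (by positivity) one_pos) ?_
    rw [← mul_assoc, ← pow_succ']
    exact h
  · have h := (Pool.Agent.TH510.ETF.hasConf_primePow hq ho).iter k
    refine Pool.Agent.TH510.ETF.to_frame (Nat.mul_pos (by positivity) ho.pos) ?_
    rw [mul_left_comm]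
    exact h
  · have hc : Fintype.card (Fin (m + 1)) = m + 1 := Fintype.card_fin _
    have hW' : W * Wᵀ = (((Fintype.card (Fin (m + 1)) : ℕ) : ℤ) - 1) •
        (1 : Matrix (Fin (m + 1)) (Fin (m + 1)) ℤ) := by
      rw [hc, hW]; congr 1; push_cast; ring
    have h := (Pool.Agent.TH510.ETF.hasConf_of_real (W := W) (by rw [hc]; omega) h0 h1 hT hW').iter k
    rw [hc, Nat.add_sub_cancel] at h
    refine Pool.Agent.TH510.ETF.to_frame (Nat.mul_pos (by positivity) (by omega)) ?_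
    rw [mul_left_comm]
    exact h

end Pool.Agent.Results.MP_0c7934_co.PrimePowerDimensions
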